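import Pool.Agent.Helper15.RA.GoalsK

/-!
# Project RA, packet KE: the Expansion Lemma
-/

set_option autoImplicit false

open LaurentPolynomial

noncomputable section

namespace Pool.Agent.Helper2.RA

open Pool.Agent.Helper15.RA

theorem t_one {I W H : Type} [Group W] [Ring H] [Algebra ℤ[T;T⁻¹] H] {M : CoxeterMatrix I}
    {cs : CoxeterSystem M W} {L : W → ℕ} (D : Hecke0 cs L H) : D.t 1 = 1 := by
  have h : ∀ Z : H, D.t 1 * Z = Z := by
    intro Z
    have h1 : LinearMap.mulLeft ℤ[T;T⁻¹] (D.t 1) = LinearMap.id := D.t.ext fun w => by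
      change D.t 1 * D.t w = D.t w
      rw [D.mul 1 w (by simp), one_mul]
    exact congrFun (congrArg DFunLike.coe h1) Z
  rw [← mul_one (D.t 1)]
  exact h 1

section

variable {I W V H : Type} [Group W] [Ring H] [Algebra ℤ[T;T⁻¹] H] (X : Ctx I W V H)

/-- All coordinates have negative degree, and the support lies in `sl w = N`, `ℓ(w) < l`. -/
def Q (N l : ℕ) (Z : H) : Prop := ∀ w, DegLE (-1) (X.D.t.repr Z w) ∧
  (X.D.t.repr Z w ≠ 0 → X.sl w = N ∧ X.cs.length w < l)

variable {X} {N l l' : ℕ} {Y Z : H}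

theorem Q.zero : Q X N l 0 := by
  intro w
  rw [map_zero, Finsupp.zero_apply]
  exact ⟨DegLE.zero _, fun h => absurd rfl h⟩

theorem Q.add (hY : Q X N l Y) (hZ : Q X N l Z) : Q X N l (Y + Z) := by
  intro w
  rw [map_add, Finsupp.add_apply]
  refine ⟨(hY w).1.add (hZ w).1, fun h => ?_⟩
  by_cases h1 : X.D.t.repr Y w = 0
  · exact (hZ w).2 fun h2 => h (by rw [h1, h2, add_zero])
  · exact (hY w).2 h1

theorem Q.sum {ι : Type*} {s : Finset ι} {f : ι → H} (h : ∀ i ∈ s, Q X N l (f i)) :
    Q X N l (∑ i ∈ s, f i) := by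
  classical
  induction s using Finset.induction_on with
  | empty => exact Q.zero
  | insert i s hi ih =>
    rw [Finset.sum_insert hi]
    exact (h i (Finset.mem_insert_self i s)).add (ih fun j hj => h j (Finset.mem_insert_of_mem hj))

theorem Q.smul {p : ℤ[T;T⁻¹]} (hp : DegLE 0 p) (hZ : Q X N l Z) (hl : l ≤ l') :
    Q X N l' (p • Z) := by
  intro w
  rw [map_smul, Finsupp.smul_apply, smul_eq_mul]
  refine ⟨hp.mul_le (hZ w).1 (by omega), fun h => ?_⟩
  obtain ⟨h1, h2⟩ := (hZ w).2 (right_ne_zero_of_mul h)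
  exact ⟨h1, h2.trans_le hl⟩

theorem Q.single {p : ℤ[T;T⁻¹]} (hp : DegLE (-1) p) (z : W) (h1 : X.sl z = N)
    (h2 : X.cs.length z < l) : Q X N l (p • X.D.t z) := by
  classical
  intro w
  rw [map_smul, Finsupp.smul_apply, smul_eq_mul, X.D.t.repr_self, Finsupp.single_apply]
  by_cases h : z = w
  · subst h
    rw [if_pos rfl, mul_one]
    exact ⟨hp, fun _ => ⟨h1, h2⟩⟩
  · rw [if_neg h, mul_zero]
    exact ⟨DegLE.zero _, fun h => absurd rfl h⟩

end

theorem h_ke (h2 : H_2) (e1 : E_1) : K_E := by
  intro I W V H _ _ _ X x K y hK hlen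
  obtain ⟨-, -, -, hck, hcs, hcd, -⟩ := h2 I W H X.M X.cs X.L X.wt X.D
  obtain ⟨hpr, -, hrep, -⟩ := e1 V W X.Γ X.G X.sl X.gp
  suffices hQ : Q X (X.sl x + K.length + X.sl y) (X.cs.length (x * K.prod * y))
      (X.D.t x * (K.map fun k => X.e (k, true)).prod * X.D.t y - X.D.t (x * K.prod * y)) from hQ
  induction K generalizing x with
  | nil =>
    simp only [List.prod_nil, mul_one, List.length_nil, add_zero, List.map_nil] at hlen ⊢
    rw [X.D.mul x y (X.len x y hlen), sub_self]
    exact Q.zero
  | cons k K ih =>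
    classical
    rw [List.prod_cons, List.length_cons] at hlen
    have hkK : X.Clq K := ⟨fun l hl => hK.1 l (List.mem_cons_of_mem _ hl), hK.2.of_cons⟩
    obtain ⟨hk1, u, hku⟩ := hK.1 k List.mem_cons_self
    have hd : X.sl K.prod = K.length := hpr K hkK
    have hdy : X.sl (K.prod * y) ≤ K.length + X.sl y := hd ▸ X.gp.mul _ _
    have hk : X.sl k = 1 := X.gp.syl u k hku hk1
    have hlen' : X.sl (x * k * (K.prod * y)) = X.sl x + (K.length + 1) + X.sl y := by
      rw [← hlen]
      congr 1
      group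
    have hx1 := X.gp.mul (x * k) (K.prod * y)
    have hx2 := X.gp.mul x k
    have hdy' : X.sl (K.prod * y) = K.length + X.sl y := by omega
    -- the replacements
    have key : ∀ g ∈ X.G u, g ≠ 1 → X.sl (x * g * (K.prod * y)) = X.sl x + 1 + X.sl (K.prod * y) ∧
        X.sl (x * g) = X.sl x + 1 ∧ X.sl (g * (K.prod * y)) = 1 + X.sl (K.prod * y) := by
      intro g hg hg1
      have r1 : X.sl (x * g * (K.prod * y)) = X.sl x + 1 + X.sl (K.prod * y) :=
        hrep u k g x (K.prod * y) hku hk1 hg hg1 (by omega)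
      have r2 := X.gp.mul (x * g) (K.prod * y)
      have r3 := X.gp.mul x g
      have r4 : X.sl g = 1 := X.gp.syl u g hg hg1
      have r5 := X.gp.mul x (g * (K.prod * y))
      have r6 := X.gp.mul g (K.prod * y)
      rw [← mul_assoc] at r5
      refine ⟨r1, by omega, by omega⟩
    have hlg : ∀ g ∈ X.G u, g ≠ 1 → X.cs.length (x * g * (K.prod * y)) =
        X.cs.length x + X.cs.length g + X.cs.length (K.prod * y) := by
      intro g hg hg1
      obtain ⟨r1, r2, r3⟩ := key g hg hg1
      have r4 : X.sl g = 1 := X.gp.syl u g hg hg1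
      rw [X.len (x * g) (K.prod * y) (by omega), X.len x g (by omega)]
    set p := X.D.t.repr (X.D.c k) with hp
    have hpu : ∀ g, p g ≠ 0 → g ∈ X.G u := fun g hg => X.supp u k hku g hg
    have hpk : p k = 1 := hck k
    have hpd : ∀ g, g ≠ k → DegLE (-1) (p g) := fun g hg => hcd k g hg
    have hpl : ∀ g, p g ≠ 0 → g ≠ k → X.cs.length g < X.cs.length k := fun g hg hgk =>
      (hcs k g hg).resolve_left hgk
    have he : X.e (k, true) = ∑ g ∈ p.support.erase 1, p g • X.D.t g := by
      have r1 : X.D.c k = ∑ g ∈ p.support, p g • X.D.t g := by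
        have := X.D.t.linearCombination_repr (X.D.c k)
        rw [← this, Finsupp.linearCombination_apply, Finsupp.sum]
      have r2 : X.e (k, true) = X.D.c k - p 1 • (1 : H) := by
        simp only [Ctx.e, if_true, hp]
      rw [r2]
      by_cases h1 : (1 : W) ∈ p.support
      · rw [Finset.sum_erase_eq_sub h1, ← r1, t_one]
      · rw [Finset.erase_eq_of_notMem h1, ← r1, Finsupp.notMem_support_iff.1 h1, zero_smul,
          sub_zero]
    -- the formula
    let P : H := (K.map fun k => X.e (k, true)).prod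
    let Zf : W → H := fun g => X.D.t (x * g) * P * X.D.t y - X.D.t (x * g * (K.prod * y))
    have hks : k ∈ p.support.erase 1 :=
      Finset.mem_erase.2 ⟨hk1, Finsupp.mem_support_iff.2 (by rw [hpk]; exact one_ne_zero)⟩
    have hmain : X.D.t x * ((k :: K).map fun k => X.e (k, true)).prod * X.D.t y -
        X.D.t (x * (k :: K).prod * y) = (∑ g ∈ p.support.erase 1, p g • Zf g) +
          ∑ g ∈ (p.support.erase 1).erase k, p g • X.D.t (x * g * (K.prod * y)) := by
      have r1 : X.D.t x * ((k :: K).map fun k => X.e (k, true)).prod * X.D.t y =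
          ∑ g ∈ p.support.erase 1, (p g • Zf g + p g • X.D.t (x * g * (K.prod * y))) := by
        rw [List.map_cons, List.prod_cons, he, Finset.sum_mul, Finset.mul_sum, Finset.sum_mul]
        refine Finset.sum_congr rfl fun g hg => ?_
        obtain ⟨hg1, hg2⟩ := Finset.mem_erase.1 hg
        have hgu := hpu g (Finsupp.mem_support_iff.1 hg2)
        obtain ⟨r1, r2, r3⟩ := key g hgu hg1
        have r4 : X.sl g = 1 := X.gp.syl u g hgu hg1
        rw [← smul_add]
        change X.D.t x * (p g • X.D.t g * P) * X.D.t y = p g •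
          (X.D.t (x * g) * P * X.D.t y - X.D.t (x * g * (K.prod * y)) +
            X.D.t (x * g * (K.prod * y)))
        rw [sub_add_cancel, ← X.D.mul x g (X.len x g (by omega)), smul_mul_assoc, mul_smul_comm,
          smul_mul_assoc]
        congr 1
        simp only [mul_assoc]
      have r2 : X.D.t (x * (k :: K).prod * y) = p k • X.D.t (x * k * (K.prod * y)) := by
        rw [hpk, one_smul, List.prod_cons]
        congr 1
        group
      rw [r1, r2, Finset.sum_add_distrib, Finset.sum_erase_eq_sub hks]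
      abel
    have hN : X.sl x + (k :: K).length + X.sl y = X.sl x + 1 + K.length + X.sl y := by
      rw [List.length_cons]; ring
    have hll : X.cs.length (x * (k :: K).prod * y) = X.cs.length (x * k * (K.prod * y)) := by
      rw [List.prod_cons]
      congr 1
      group
    rw [hmain, hN, hll]
    refine Q.add (Q.sum fun g hg => ?_) (Q.sum fun g hg => ?_)
    · obtain ⟨hg1, hg2⟩ := Finset.mem_erase.1 hg
      have hg0 := Finsupp.mem_support_iff.1 hg2
      have hgu := hpu g hg0
      obtain ⟨r1, r2, r3⟩ := key g hgu hg1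
      have r5 : X.sl (x * g * K.prod * y) = X.sl (x * g) + K.length + X.sl y := by
        rw [mul_assoc (x * g), r1, r2, hdy']
        ring
      have r6 := ih (x * g) hkK r5
      rw [r2, mul_assoc (x * g) K.prod y] at r6
      refine Q.smul ?_ r6 ?_
      · by_cases hgk : g = k
        · rw [hgk, hpk]
          exact DegLE.one le_rfl
        · exact (hpd g hgk).mono (by omega)
      · rw [hlg g hgu hg1, hlg k hku hk1]
        by_cases hgk : g = k
        · rw [hgk]
        · have := hpl g hg0 hgk
          omega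
    · obtain ⟨hgk, hg'⟩ := Finset.mem_erase.1 hg
      obtain ⟨hg1, hg2⟩ := Finset.mem_erase.1 hg'
      have hg0 := Finsupp.mem_support_iff.1 hg2
      have hgu := hpu g hg0
      obtain ⟨r1, r2, r3⟩ := key g hgu hg1
      refine Q.single (hpd g hgk) _ ?_ ?_
      · rw [r1, hdy']
        ring
      · rw [hlg g hgu hg1, hlg k hku hk1]
        have := hpl g hg0 hgk
        omega

end Pool.Agent.Helper2.RA
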