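import Pool.Agent.Helper15.RA.GoalsR

/-!
# Project RA, packet RU: dihedral groups with unequal parameters, the middle coordinates
-/

set_option autoImplicit false

open LaurentPolynomial

noncomputable section

namespace Pool.Agent.Helper2.RA

open Pool.Agent.Helper15.RA

section EE

variable {H : Type} [Ring H] [Algebra ℤ[T;T⁻¹] H] {ci cj Z : H}

omit [Algebra ℤ[T;T⁻¹] H] in
theorem EE_mem (G : AddSubgroup H) (hZ : ∀ Y ∈ G, Z * Y ∈ G) (g : H) (h1 : ci * g ∈ G)
    (h2 : ci * cj * g ∈ G) : ∀ k, EE ci cj Z k * g ∈ G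
  | 0 => by rw [EE, zero_mul]; exact zero_mem _
  | 1 => by rw [EE]; exact h1
  | 2 => by rw [EE]; exact h2
  | 3 => by rw [EE, mul_assoc]; exact hZ _ h1
  | k + 4 => by
    rw [EE, sub_mul, mul_assoc]
    exact sub_mem (hZ _ (EE_mem G hZ g h1 h2 (k + 2))) (EE_mem G hZ g h1 h2 k)

theorem ci_Z {δ ζ : ℤ[T;T⁻¹]} (hci : ci * ci = δ • ci) (hZ : Z = ci * cj - ζ • 1) (Y : H)
    (hY : ci * Y = δ • Y) : ci * (Z * Y) = δ • (Z * Y) := by
  rw [hZ, sub_mul, mul_sub, smul_mul_assoc, one_mul, mul_smul_comm, hY, smul_sub, ← mul_assoc,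
    ← mul_assoc, hci, smul_mul_assoc, smul_mul_assoc, smul_comm]

theorem ci_EE {δ ζ : ℤ[T;T⁻¹]} (hci : ci * ci = δ • ci) (hZ : Z = ci * cj - ζ • 1) :
    ∀ k, ci * EE ci cj Z k = δ • EE ci cj Z k
  | 0 => by rw [EE, mul_zero, smul_zero]
  | 1 => by rw [EE]; exact hci
  | 2 => by rw [EE, ← mul_assoc, hci, smul_mul_assoc]
  | 3 => by rw [EE]; exact ci_Z hci hZ _ hci
  | k + 4 => by
    rw [EE, mul_sub, ci_Z hci hZ _ (ci_EE hci hZ (k + 2)), ci_EE hci hZ k, smul_sub]

end EE

section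

variable {I W H : Type} [Group W] [Ring H] [Algebra ℤ[T;T⁻¹] H] (X : Dih I W H)
  (b : Module.Basis W ℤ[T;T⁻¹] H)

/-- The coordinates are at the middle elements, `e` and `w₀`; at the middle elements their degree is
at most `d`. -/
def PG (d : ℤ) : AddSubgroup H where
  carrier := {Y | ∀ z, (b.repr Y z ≠ 0 → X.Mid z ∨ z = X.e ∨ z = X.w0) ∧
    (X.Mid z → DegLE d (b.repr Y z))}
  zero_mem' := by
    intro z
    rw [map_zero, Finsupp.zero_apply]
    exact ⟨fun h => absurd rfl h, fun _ => DegLE.zero _⟩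
  add_mem' := by
    intro Y Z hY hZ z
    rw [map_add, Finsupp.add_apply]
    refine ⟨fun h => ?_, fun h => ((hY z).2 h).add ((hZ z).2 h)⟩
    by_cases h1 : b.repr Y z = 0
    · exact (hZ z).1 fun h2 => h (by rw [h1, h2, add_zero])
    · exact (hY z).1 h1
  neg_mem' := by
    intro Y hY z
    rw [map_neg, Finsupp.neg_apply]
    exact ⟨fun h => (hY z).1 (neg_ne_zero.1 h), fun h => ((hY z).2 h).neg⟩

theorem mem_PG {d : ℤ} {Y : H} : Y ∈ PG X b d ↔
    ∀ z, (b.repr Y z ≠ 0 → X.Mid z ∨ z = X.e ∨ z = X.w0) ∧ (X.Mid z → DegLE d (b.repr Y z)) :=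
  Iff.rfl

theorem PG_mono {d d' : ℤ} (h : d ≤ d') {Y : H} (hY : Y ∈ PG X b d) : Y ∈ PG X b d' :=
  fun z => ⟨(hY z).1, fun hz => ((hY z).2 hz).mono h⟩

/-- The span of the `E_k`, with degree bounds for `k ≤ m - 2`. -/
def GG (d : ℤ) : AddSubgroup H := AddSubgroup.closure
  {Y | ∃ (k : ℕ) (κ : ℤ[T;T⁻¹]), k ≤ X.m ∧ (k + 2 ≤ X.m → DegLE d κ) ∧ Y = κ • X.E k}

theorem GG_gen {d : ℤ} {k : ℕ} {κ : ℤ[T;T⁻¹]} (hk : k ≤ X.m) (hd : k + 2 ≤ X.m → DegLE d κ) :
    κ • X.E k ∈ GG X d := AddSubgroup.subset_closure ⟨k, κ, hk, hd, rfl⟩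

theorem GG_smul {d d' : ℤ} {q : ℤ[T;T⁻¹]} (hq : DegLE d' q) {Y : H} (hY : Y ∈ GG X d) {d'' : ℤ}
    (hd : d' + d ≤ d'') : q • Y ∈ GG X d'' := by
  induction hY using AddSubgroup.closure_induction with
  | mem Y hY =>
    obtain ⟨k, κ, hk, hκ, rfl⟩ := hY
    rw [smul_smul]
    exact GG_gen X hk fun h => hq.mul_le (hκ h) hd
  | zero => rw [smul_zero]; exact zero_mem _
  | add x y _ _ hx hy => rw [smul_add]; exact add_mem hx hy
  | neg x _ hx => rw [smul_neg]; exact neg_mem hx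

theorem GG_mono {d d' : ℤ} (h : d ≤ d') {Y : H} (hY : Y ∈ GG X d) : Y ∈ GG X d' := by
  have := GG_smul X (q := 1) (DegLE.one le_rfl) hY (d'' := d') (by omega)
  rwa [one_smul] at this

end

theorem h_ru (h2 : H_2) (h3 : H_3) (hv : H_V) (hw : R_W) (re : R_E) (rt : R_T) : R_U := by
  classical
  intro I W H _ _ _ X hab
  obtain ⟨-, -, -, -, -, -, -, hc1, -, hcs⟩ := h2 I W H X.M X.cs X.L X.wt X.D
  obtain ⟨⟨b, hb, -, -⟩, -, -, -, -⟩ := h3 I W H X.M X.cs X.L X.wt X.D
  obtain ⟨-, -, hV⟩ := hv I W H X.M X.cs X.L X.wt X.D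
  replace hV := hV X.h X.isH
  obtain ⟨hE, hcE⟩ := re I W H X hab
  obtain ⟨t1, t2, t3, t4, t5, -, -, -⟩ := rt I W H X
  have hm0 : X.M X.i X.j ≠ 0 := by have := X.hm; omega
  have hMs : X.M X.j X.i = X.M X.i X.j := X.M.symmetric _ _
  obtain ⟨w1, w2, w3, w4, w5, w6, w7⟩ := hw I W X.M X.cs X.i X.j X.ne X.all hm0
  obtain ⟨v1, -, -, -, v5, v6, -⟩ := hw I W X.M X.cs X.j X.i X.ne.symm
    (fun k => (X.all k).symm) (by rwa [hMs])
  rw [hMs] at v1
  obtain ⟨-, -, -, w7'⟩ := w7 X.L X.wt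
  have hev : Even X.m := w7' (by
    intro h
    have : X.a = X.b := h
    omega)
  have hm4 : 4 ≤ X.m := by
    have h1 : 3 ≤ X.m := X.hm
    obtain ⟨r, hr⟩ := hev
    omega
  have hlp : ∀ k ≤ X.m, X.cs.length (X.p k) = k := w1
  have hlq : ∀ k ≤ X.m, X.cs.length (X.q k) = k := v1
  have hpq : X.p X.m = X.q X.m := w2
  have hpq' : ∀ k ≤ X.m, ∀ k' ≤ X.m, X.p k = X.q k' → k = k' ∧ (k = 0 ∨ k = X.m) := w4
  have hp0 : X.p 0 = 1 := rfl
  have hq0 : X.q 0 = 1 := rfl
  have hq1 : X.q 1 = X.cs.simple X.j := by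
    change X.cs.simple X.j * 1 = _
    rw [mul_one]
  have hw0 : X.w0 = X.p X.m := rfl
  have he : X.e = X.p (X.m - 1) := rfl
  -- positivity
  have hsj1 : X.cs.simple X.j ≠ 1 := by
    intro h
    have h1 := hlq 1 (by omega)
    rw [hq1, h, X.cs.length_one] at h1
    omega
  have hbpos : 0 < X.b := X.wt.pos _ hsj1
  -- the middle elements
  have hpMid : ∀ k, 1 ≤ k → k + 2 ≤ X.m → X.Mid (X.p k) := by
    intro k hk1 hk2
    have hl := hlp k (by omega)
    refine ⟨fun h => ?_, fun h => ?_, fun h => ?_, fun h => ?_⟩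
    · rw [h, X.cs.length_one] at hl; omega
    · rw [← hq1] at h
      have := hpq' k (by omega) 1 (by omega) h
      omega
    · rw [h, he, hlp _ (by omega)] at hl; omega
    · rw [h, hw0, hlp _ le_rfl] at hl; omega
  have hqMid : ∀ k, 1 ≤ k → k + 2 ≤ X.m → X.Mid (X.q (k + 1)) := by
    intro k hk1 hk2
    have hl := hlq (k + 1) (by omega)
    refine ⟨fun h => ?_, fun h => ?_, fun h => ?_, fun h => ?_⟩
    · rw [h, X.cs.length_one] at hl; omega
    · rw [h, ← hq1, hlq 1 (by omega)] at hl; omega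
    · have := hpq' (X.m - 1) (by omega) (k + 1) (by omega) (he ▸ h.symm)
      omega
    · rw [h, hw0, hlp _ le_rfl] at hl; omega
  have hx : ∀ x, x = 1 ∨ x = X.cs.simple X.j ∨ (∃ k, 1 ≤ k ∧ k ≤ X.m ∧ x = X.p k) ∨
      ∃ k, 1 ≤ k ∧ k + 1 ≤ X.m ∧ x = X.q (k + 1) := by
    intro x
    obtain ⟨k, hk, h | h⟩ := w3 x
    · rcases Nat.eq_zero_or_pos k with h0 | h0
      · subst h0
        exact Or.inl (h.trans hp0)
      · exact Or.inr (Or.inr (Or.inl ⟨k, h0, hk, h⟩))
    · rcases k with _ | _ | k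
      · exact Or.inl (h.trans hq0)
      · exact Or.inr (Or.inl (h.trans hq1))
      · exact Or.inr (Or.inr (Or.inr ⟨k + 1, by omega, hk, h⟩))
  have hy : ∀ y, y = 1 ∨ y = X.cs.simple X.j ∨ (∃ k, 1 ≤ k ∧ k + 2 ≤ X.m ∧ y = X.p k) ∨
      (∃ k, 1 ≤ k ∧ k + 2 ≤ X.m ∧ y = X.q (k + 1)) ∨ y = X.e ∨ y = X.w0 := by
    intro y
    rcases hx y with h | h | ⟨k, hk1, hk2, h⟩ | ⟨k, hk1, hk2, h⟩
    · exact Or.inl h
    · exact Or.inr (Or.inl h)
    · rcases Nat.lt_or_ge (X.m) (k + 2) with h3 | h3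
      · have h4 : k = X.m - 1 ∨ k = X.m := by omega
        rcases h4 with h4 | h4
        · rw [h4] at h
          exact Or.inr (Or.inr (Or.inr (Or.inr (Or.inl h))))
        · rw [h4] at h
          exact Or.inr (Or.inr (Or.inr (Or.inr (Or.inr h))))
      · exact Or.inr (Or.inr (Or.inl ⟨k, hk1, h3, h⟩))
    · rcases Nat.lt_or_ge (X.m) (k + 2) with h3 | h3
      · have h4 : k + 1 = X.m := by omega
        rw [h4, ← hpq] at h
        exact Or.inr (Or.inr (Or.inr (Or.inr (Or.inr h))))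
      · exact Or.inr (Or.inr (Or.inr (Or.inl ⟨k, hk1, h3, h⟩)))
  -- `ci`, `cj`
  have hcici : X.ci * X.ci = dl X.a • X.ci := hcs X.i
  have hcjcj : X.cj * X.cj = dl X.b • X.cj := hcs X.j
  have hZ : X.Z = X.ci * X.cj - X.zeta • 1 := rfl
  have hciE : ∀ k, X.ci * X.E k = dl X.a • X.E k := ci_EE hcici hZ
  have hcj : X.D.c (X.cs.simple X.j) = X.cj := rfl
  have hce : X.D.c X.e = X.E (X.m - 1) := by rw [he, hE _ (by omega) (by omega)]
  have hcw : X.D.c X.w0 = X.E X.m := by rw [hw0, hE _ (by omega) le_rfl]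
  have hcje : X.cj * X.E (X.m - 1) = X.E X.m := by
    have h1 := hcE (X.m - 1) (by omega) (by omega)
    rw [h1, ← hcw, hw0, hpq]
    congr 2
    omega
  have hcjw : X.cj * X.E X.m = dl X.b • X.E X.m := by rw [← hcw]; exact t2
  have hE0 : X.E 0 = 0 := rfl
  have hE1 : X.E 1 = X.ci := rfl
  have hE2 : X.E 2 = X.ci * X.cj := rfl
  have hE3 : X.Z * X.E 1 = X.E 3 := rfl
  have hE4 : ∀ k, X.Z * X.E (k + 2) = X.E (k + 4) + X.E k := by
    intro k
    have h1 : X.E (k + 4) = X.Z * X.E (k + 2) - X.E k := rfl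
    rw [h1, sub_add_cancel]
  have hciZ : ∀ Y, X.ci * X.cj * Y = X.Z * Y + X.zeta • Y := by
    intro Y
    rw [hZ, sub_mul, smul_mul_assoc, one_mul, sub_add_cancel]
  -- degrees
  have hzd : DegLE ((X.a : ℤ) - X.b) X.zeta := (DegLE.T_le le_rfl).add (DegLE.T_le (by omega))
  have hda : DegLE X.a (dl X.a) := DegLE.dl _
  have hdb : DegLE X.b (dl X.b) := DegLE.dl _
  -- `Z` preserves `GG d`
  have g1 : ∀ (d : ℤ), ∀ Y ∈ GG X d, X.Z * Y ∈ GG X d := by
    intro d Y hY
    induction hY using AddSubgroup.closure_induction with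
    | mem Y hY =>
      obtain ⟨k, κ, hk, hκ, rfl⟩ := hY
      rw [mul_smul_comm]
      rcases k with _ | _ | k
      · rw [hE0, mul_zero, smul_zero]
        exact zero_mem _
      · rw [zero_add, hE3]
        exact GG_gen X (by omega) fun _ => hκ (by omega)
      · rcases Nat.lt_or_ge X.m (k + 4) with h4 | h4
        · have h5 : k + 2 = X.m - 1 ∨ k + 2 = X.m := by omega
          have h6 : X.Z * X.E (k + 2) = X.ci * (X.cj * X.E (k + 2)) - X.zeta • X.E (k + 2) := by
            rw [← mul_assoc, hciZ, add_sub_cancel_right]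
          rw [show k + 1 + 1 = k + 2 by ring, h6, smul_sub]
          refine sub_mem ?_ ?_
          · rcases h5 with h5 | h5
            · rw [h5, hcje, hciE, smul_smul]
              exact GG_gen X le_rfl fun h => absurd h (by omega)
            · rw [h5, hcjw, mul_smul_comm, hciE, smul_smul, smul_smul]
              exact GG_gen X le_rfl fun h => absurd h (by omega)
          · rw [smul_smul]
            exact GG_gen X hk fun h => absurd h (by omega)
        · rw [show k + 1 + 1 = k + 2 by ring, hE4, smul_add]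
          exact add_mem (GG_gen X h4 fun _ => hκ (by omega))
            (GG_gen X (by omega) fun _ => hκ (by omega))
    | zero => rw [mul_zero]; exact zero_mem _
    | add x y _ _ hx hy => rw [mul_add]; exact add_mem hx hy
    | neg x _ hx => rw [mul_neg]; exact neg_mem hx
  have hEg : ∀ (d : ℤ) (g : H), X.ci * g ∈ GG X d → X.ci * X.cj * g ∈ GG X d →
      ∀ k, X.E k * g ∈ GG X d := fun d g h1 h2 k => EE_mem (GG X d) (g1 d) g h1 h2 k
  -- coordinates
  have hbc : ∀ w z, b.repr (X.D.c w) z = if w = z then 1 else 0 := by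
    intro w z
    rw [← hb, b.repr_self, Finsupp.single_apply]
  have PGs : ∀ (d : ℤ) (κ : ℤ[T;T⁻¹]) (w : W), (X.Mid w ∧ DegLE d κ) ∨ w = X.e ∨ w = X.w0 →
      κ • X.D.c w ∈ PG X b d := by
    intro d κ w h z
    rw [map_smul, Finsupp.smul_apply, smul_eq_mul, hbc]
    by_cases hwz : w = z
    · rw [if_pos hwz, mul_one]
      subst hwz
      refine ⟨fun _ => ?_, fun hz => ?_⟩
      · rcases h with h | h
        · exact Or.inl h.1
        · exact Or.inr h
      · rcases h with h | h | h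
        · exact h.2
        · exact absurd h hz.2.2.1
        · exact absurd h hz.2.2.2
    · rw [if_neg hwz, mul_zero]
      exact ⟨fun h => absurd rfl h, fun _ => DegLE.zero _⟩
  have g4 : ∀ (d : ℤ), ∀ Y ∈ GG X d, Y ∈ PG X b d := by
    intro d Y hY
    induction hY using AddSubgroup.closure_induction with
    | mem Y hY =>
      obtain ⟨k, κ, hk, hκ, rfl⟩ := hY
      rcases Nat.eq_zero_or_pos k with h0 | h0
      · rw [h0, hE0, smul_zero]
        exact zero_mem _
      · rw [hE k h0 hk]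
        apply PGs
        rcases Nat.lt_or_ge X.m (k + 2) with h3 | h3
        · have h4 : k = X.m - 1 ∨ k = X.m := by omega
          rcases h4 with h4 | h4
          · exact Or.inr (Or.inl (by rw [h4]; rfl))
          · exact Or.inr (Or.inr (by rw [h4]; rfl))
        · exact Or.inl ⟨hpMid k h0 h3, hκ h3⟩
    | zero => exact zero_mem _
    | add x y _ _ hx hy => exact add_mem hx hy
    | neg x _ hx => exact neg_mem hx
  have g5 : ∀ (d : ℤ), ∀ Y ∈ GG X d, X.cj * Y ∈ PG X b d := by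
    intro d Y hY
    induction hY using AddSubgroup.closure_induction with
    | mem Y hY =>
      obtain ⟨k, κ, hk, hκ, rfl⟩ := hY
      rw [mul_smul_comm]
      rcases Nat.eq_zero_or_pos k with h0 | h0
      · rw [h0, hE0, mul_zero, smul_zero]
        exact zero_mem _
      · rcases Nat.lt_or_ge X.m (k + 2) with h3 | h3
        · have h4 : k = X.m - 1 ∨ k = X.m := by omega
          rcases h4 with h4 | h4
          · rw [h4, hcje, ← hcw]
            exact PGs _ _ _ (Or.inr (Or.inr rfl))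
          · rw [h4, hcjw, ← hcw, smul_smul]
            exact PGs _ _ _ (Or.inr (Or.inr rfl))
        · rw [hcE k h0 (by omega)]
          exact PGs _ _ _ (Or.inl ⟨hqMid k h0 h3, hκ h3⟩)
    | zero => rw [mul_zero]; exact zero_mem _
    | add x y _ _ hx hy => rw [mul_add]; exact add_mem hx hy
    | neg x _ hx => rw [mul_neg]; exact neg_mem hx
  -- products
  have hcx : ∀ (d : ℤ) (g : H), X.ci * g ∈ GG X d → X.ci * X.cj * g ∈ GG X d →
      ∀ x, x ≠ 1 → x ≠ X.cs.simple X.j → X.D.c x * g ∈ PG X b d := by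
    intro d g h1 h2 x hx1 hxj
    rcases hx x with h | h | ⟨k, hk1, hk2, h⟩ | ⟨k, hk1, hk2, h⟩
    · exact absurd h hx1
    · exact absurd h hxj
    · rw [h, ← hE k hk1 hk2]
      exact g4 d _ (hEg d g h1 h2 k)
    · rw [h, ← hcE k hk1 hk2, mul_assoc]
      exact g5 d _ (hEg d g h1 h2 k)
  have hEG : ∀ (d : ℤ) k, k ≤ X.m → (k + 2 ≤ X.m → 0 ≤ d) → X.E k ∈ GG X d := by
    intro d k hk hd
    have := GG_gen X (d := d) (κ := 1) hk fun h => DegLE.one (hd h)
    rwa [one_smul] at this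
  have hcic : ∀ (d : ℤ) k, k ≤ X.m → (k + 2 ≤ X.m → (X.a : ℤ) - X.b ≤ d) →
      X.ci * X.cj * X.E k ∈ GG X d := by
    intro d k hk hd
    rw [hciZ]
    refine add_mem (g1 d _ (hEG d k hk fun h => ?_)) (GG_gen X hk fun h => hzd.mono (hd h))
    have := hd h
    omega
  -- middle `y`
  have T1 : ∀ x y, X.Mid y → X.D.c x * X.D.c y ∈ PG X b X.a ∧
      (x = 1 ∨ x = X.cs.simple X.j → X.D.c x * X.D.c y ∈ PG X b ((X.a : ℤ) - 1)) := by
    intro x y hyM
    -- special `x`
    have hsp : x = 1 ∨ x = X.cs.simple X.j → X.D.c x * X.D.c y ∈ PG X b ((X.a : ℤ) - 1) := by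
      rintro (h | h)
      · rw [h, hc1, one_mul, ← one_smul ℤ[T;T⁻¹] (X.D.c y)]
        exact PGs _ _ _ (Or.inl ⟨hyM, DegLE.one (by omega)⟩)
      · rw [h, hcj]
        rcases hy y with h | h | ⟨k, hk1, hk2, h⟩ | ⟨k, hk1, hk2, h⟩ | h | h
        · exact absurd h hyM.1
        · exact absurd h hyM.2.1
        · rw [h, ← hE k hk1 (by omega)]
          exact g5 _ _ (hEG _ k (by omega) fun _ => by omega)
        · rw [h, ← hcE k hk1 (by omega), ← mul_assoc, hcjcj, smul_mul_assoc,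
            hcE k hk1 (by omega)]
          exact PGs _ _ _ (Or.inl ⟨hqMid k hk1 hk2, hdb.mono (by omega)⟩)
        · exact absurd h hyM.2.2.1
        · exact absurd h hyM.2.2.2
    refine ⟨?_, hsp⟩
    by_cases hxs : x = 1 ∨ x = X.cs.simple X.j
    · exact PG_mono X b (by omega) (hsp hxs)
    push Not at hxs
    refine hcx _ _ ?_ ?_ x hxs.1 hxs.2
    · rcases hy y with h | h | ⟨k, hk1, hk2, h⟩ | ⟨k, hk1, hk2, h⟩ | h | h
      · exact absurd h hyM.1
      · exact absurd h hyM.2.1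
      · rw [h, ← hE k hk1 (by omega), hciE]
        exact GG_gen X (by omega) fun _ => hda
      · rw [h, ← hcE k hk1 (by omega), ← mul_assoc]
        exact hcic _ k (by omega) fun _ => by omega
      · exact absurd h hyM.2.2.1
      · exact absurd h hyM.2.2.2
    · rcases hy y with h | h | ⟨k, hk1, hk2, h⟩ | ⟨k, hk1, hk2, h⟩ | h | h
      · exact absurd h hyM.1
      · exact absurd h hyM.2.1
      · rw [h, ← hE k hk1 (by omega)]
        exact hcic _ k (by omega) fun _ => by omega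
      · rw [h, ← hcE k hk1 (by omega), mul_assoc, ← mul_assoc X.cj, hcjcj, smul_mul_assoc,
          mul_smul_comm, ← mul_assoc]
        exact GG_smul X hdb (hcic ((X.a : ℤ) - X.b) k (by omega) fun _ => le_rfl) (by omega)
      · exact absurd h hyM.2.2.1
      · exact absurd h hyM.2.2.2
  -- `y = e`, `y = w₀`
  have T2 : ∀ x y, y = X.e ∨ y = X.w0 → ∀ d : ℤ, X.D.c x * X.D.c y ∈ PG X b d := by
    intro x y hye d
    have hyk : ∃ k, k ≤ X.m ∧ X.m < k + 2 ∧ X.D.c y = X.E k := by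
      rcases hye with h | h
      · exact ⟨X.m - 1, by omega, by omega, by rw [h, hce]⟩
      · exact ⟨X.m, le_rfl, by omega, by rw [h, hcw]⟩
    obtain ⟨k, hk1, hk2, hk3⟩ := hyk
    have hEd : X.E k ∈ GG X d := hEG d k hk1 fun h => absurd h (by omega)
    by_cases hx1 : x = 1
    · rw [hx1, hc1, one_mul, hk3]
      exact g4 d _ hEd
    by_cases hxj : x = X.cs.simple X.j
    · rw [hxj, hcj, hk3]
      exact g5 d _ hEd
    rw [hk3]
    refine hcx d _ ?_ ?_ x hx1 hxj
    · rw [hciE]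
      exact GG_gen X hk1 fun h => absurd h (by omega)
    · exact hcic d k hk1 fun h => absurd h (by omega)
  -- `y = s_j`
  have T3 : ∀ x, x ≠ 1 → x ≠ X.cs.simple X.j →
      X.D.c x * X.D.c (X.cs.simple X.j) ∈ PG X b ((X.a : ℤ) - 1) := by
    intro x hx1 hxj
    rw [hcj]
    refine hcx _ _ ?_ ?_ x hx1 hxj
    · rw [← hE2]
      exact hEG _ 2 (by omega) fun _ => by omega
    · rw [mul_assoc, hcjcj, mul_smul_comm, ← hE2]
      exact GG_gen X (by omega) fun _ => hdb.mono (by omega)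
  -- the structure constants
  have hh : ∀ x y, X.h x y = b.repr (X.D.c x * X.D.c y) := by
    intro x y
    have h1 : (X.h x y).sum (fun z p => p • X.D.c z) =
        Finsupp.linearCombination ℤ[T;T⁻¹] b (X.h x y) := by
      rw [Finsupp.linearCombination_apply]
      simp only [hb]
    rw [X.isH x y, h1, b.repr_linearCombination]
  -- special elements
  have hM1 : ¬ (X.Mid 1 ∨ (1 : W) = X.e ∨ (1 : W) = X.w0) := by
    rintro (h | h | h)
    · exact h.1 rfl
    · have := hlp (X.m - 1) (by omega)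
      rw [← he, ← h, X.cs.length_one] at this
      omega
    · have := hlp X.m le_rfl
      rw [← hw0, ← h, X.cs.length_one] at this
      omega
  have hMj : ¬ (X.Mid (X.cs.simple X.j) ∨ X.cs.simple X.j = X.e ∨ X.cs.simple X.j = X.w0) := by
    rintro (h | h | h)
    · exact h.2.1 rfl
    · have := hlp (X.m - 1) (by omega)
      rw [← he, ← h, ← hq1, hlq 1 (by omega)] at this
      omega
    · have := hlp X.m le_rfl
      rw [← hw0, ← h, ← hq1, hlq 1 (by omega)] at this
      omega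
  -- inverses
  have hei : X.e⁻¹ = X.e := w6 (X.m - 1) (by
    obtain ⟨r, hr⟩ := hev
    exact ⟨r - 1, by omega⟩)
  have hwi : X.w0⁻¹ = X.w0 := (w5 X.m hev).trans w2.symm
  have hji : (X.cs.simple X.j)⁻¹ = X.cs.simple X.j := X.cs.inv_simple X.j
  have hMi : ∀ z, X.Mid z⁻¹ ↔ X.Mid z := by
    intro z
    have h1 : ∀ u : W, u⁻¹ = u → (z⁻¹ = u ↔ z = u) := fun u hu =>
      ⟨fun h => by rw [← inv_inv z, h, hu], fun h => by rw [h, hu]⟩
    unfold Dih.Mid
    rw [Ne, Ne, Ne, Ne, h1 1 inv_one, h1 _ hji, h1 _ hei, h1 _ hwi]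
  have hzi : ∀ z, (X.Mid z⁻¹ ∨ z⁻¹ = X.e ∨ z⁻¹ = X.w0) → (X.Mid z ∨ z = X.e ∨ z = X.w0) := by
    rintro z (h | h | h)
    · exact Or.inl ((hMi z).1 h)
    · exact Or.inr (Or.inl (by rw [← inv_inv z, h, hei]))
    · exact Or.inr (Or.inr (by rw [← inv_inv z, h, hwi]))
  -- (5), first half
  have h5 : ∀ x y, X.h x y 1 ≠ 0 → y = 1 := by
    intro x y h
    by_contra hy1
    rw [hh] at h
    by_cases hyM : X.Mid y
    · exact hM1 (((T1 x y hyM).1 1).1 h)
    by_cases hye : y = X.e ∨ y = X.w0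
    · exact hM1 ((T2 x y hye 0 1).1 h)
    have hyj : y = X.cs.simple X.j := by
      by_contra hyj
      push Not at hye
      exact hyM ⟨hy1, hyj, hye.1, hye.2⟩
    subst hyj
    by_cases hx1 : x = 1
    · rw [hx1, hc1, one_mul, hbc, if_neg hsj1] at h
      exact h rfl
    by_cases hxj : x = X.cs.simple X.j
    · rw [hxj, hcj, hcjcj, map_smul, Finsupp.smul_apply, ← hcj, hbc, if_neg hsj1, smul_zero] at h
      exact h rfl
    · exact hM1 ((T3 x hx1 hxj 1).1 h)
  refine ⟨⟨?_, ?_⟩, ?_, ?_, ?_, ?_, ?_, ?_, ?_⟩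
  · rw [hce]
    exact hciE _
  · rw [hce, hcw, hcje]
  · intro x y z h hxy
    by_contra hz
    rcases hxy with hx | hy
    · exact h (by rw [hx]; exact (t5 y z hz).2)
    · exact h (by rw [hy]; exact (t5 x z hz).1)
  · -- (3)
    have h3' : ∀ x z, X.h x X.e z ≠ 0 → z = X.e ∨ z = X.w0 := by
      intro x z h
      rw [hh] at h
      rcases (T2 x X.e (Or.inl rfl) 0 z).1 h with h1 | h1
      · exact absurd (eq_zero_of_degLE fun k => (T2 x X.e (Or.inl rfl) k z).2 h1) h
      · exact h1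
    intro x y z h hxy
    rcases hxy with hx | hy
    · rw [hV, hx, hei] at h
      rcases h3' _ _ h with h1 | h1
      · exact Or.inl (by rw [← inv_inv z, h1, hei])
      · exact Or.inr (by rw [← inv_inv z, h1, hwi])
    · rw [hy] at h
      exact h3' _ _ h
  · -- (4)
    intro x y z h hxy
    rcases hxy with hx | hy
    · rw [hV, hh] at h
      exact hzi z (((T1 _ _ ((hMi x).2 hx)).1 _).1 h)
    · rw [hh] at h
      exact ((T1 _ _ hy).1 _).1 h
  · -- (5)
    intro x y h
    refine ⟨?_, h5 x y h⟩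
    rw [hV, inv_one] at h
    exact inv_eq_one.1 (h5 _ _ h)
  · -- (6)
    rw [hh, hc1, one_mul, ← hc1, hbc, if_pos rfl]
    exact DegLE.one le_rfl
  · -- (7)
    intro x y z hz
    rw [hh]
    by_cases hyM : X.Mid y
    · refine ⟨((T1 x y hyM).1 z).2 hz, ?_⟩
      rintro (h | h | h | h)
      · exact ((T1 x y hyM).2 (Or.inl h) z).2 hz
      · exact ((T1 x y hyM).2 (Or.inr h) z).2 hz
      · exact absurd h hyM.1
      · exact absurd h hyM.2.1
    · have key : DegLE ((X.a : ℤ) - 1) (b.repr (X.D.c x * X.D.c y) z) := by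
        by_cases hye : y = X.e ∨ y = X.w0
        · exact (T2 x y hye _ z).2 hz
        by_cases hy1 : y = 1
        · rw [hy1, hc1, mul_one, hbc]
          split_ifs
          · exact DegLE.one (by omega)
          · exact DegLE.zero _
        have hyj : y = X.cs.simple X.j := by
          by_contra hyj
          push Not at hye
          exact hyM ⟨hy1, hyj, hye.1, hye.2⟩
        subst hyj
        by_cases hx1 : x = 1
        · rw [hx1, hc1, one_mul, hbc, if_neg (Ne.symm hz.2.1)]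
          exact DegLE.zero _
        by_cases hxj : x = X.cs.simple X.j
        · rw [hxj, hcj, hcjcj, map_smul, Finsupp.smul_apply, ← hcj, hbc,
            if_neg (Ne.symm hz.2.1), smul_zero]
          exact DegLE.zero _
        · exact (T3 x hx1 hxj z).2 hz
      exact ⟨key.mono (by omega), fun _ => key⟩
  · -- (8)
    intro x y
    rw [hh]
    have key0 : ∀ d : ℤ, b.repr (X.D.c x * X.D.c y) (X.cs.simple X.j) = 0 →
        DegLE d (b.repr (X.D.c x * X.D.c y) (X.cs.simple X.j)) := by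
      intro d h
      rw [h]
      exact DegLE.zero _
    by_cases hyM : X.Mid y
    · have h0 : b.repr (X.D.c x * X.D.c y) (X.cs.simple X.j) = 0 := by
        by_contra h
        exact hMj (((T1 x y hyM).1 _).1 h)
      exact ⟨key0 _ h0, fun _ => key0 _ h0⟩
    by_cases hye : y = X.e ∨ y = X.w0
    · have h0 : b.repr (X.D.c x * X.D.c y) (X.cs.simple X.j) = 0 := by
        by_contra h
        exact hMj ((T2 x y hye 0 _).1 h)
      exact ⟨key0 _ h0, fun _ => key0 _ h0⟩
    by_cases hy1 : y = 1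
    · have key : DegLE ((X.b : ℤ) - 1) (b.repr (X.D.c x * X.D.c y) (X.cs.simple X.j)) := by
        rw [hy1, hc1, mul_one, hbc]
        split_ifs
        · exact DegLE.one (by omega)
        · exact DegLE.zero _
      exact ⟨key.mono (by omega), fun _ => key⟩
    have hyj : y = X.cs.simple X.j := by
      by_contra hyj
      push Not at hye
      exact hyM ⟨hy1, hyj, hye.1, hye.2⟩
    subst hyj
    by_cases hx1 : x = 1
    · have key : DegLE ((X.b : ℤ) - 1)
          (b.repr (X.D.c x * X.D.c (X.cs.simple X.j)) (X.cs.simple X.j)) := by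
        rw [hx1, hc1, one_mul, hbc, if_pos rfl]
        exact DegLE.one (by omega)
      exact ⟨key.mono (by omega), fun _ => key⟩
    by_cases hxj : x = X.cs.simple X.j
    · refine ⟨?_, ?_⟩
      · rw [hxj, hcj, hcjcj, map_smul, Finsupp.smul_apply, ← hcj, hbc, if_pos rfl, smul_eq_mul,
          mul_one]
        exact hdb
      · rintro (h | h)
        · exact absurd h hx1
        · exact absurd h hsj1
    · have h0 : b.repr (X.D.c x * X.D.c (X.cs.simple X.j)) (X.cs.simple X.j) = 0 := by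
        by_contra h
        exact hMj ((T3 x hx1 hxj _).1 h)
      exact ⟨key0 _ h0, fun _ => key0 _ h0⟩

end Pool.Agent.Helper2.RA
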